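import Mathlib

/-!
Skew products over a rotation of the circle with fibre the circle: coboundaries and their
perturbations.
-/

open Set Filter Topology

set_option autoImplicit false
set_option linter.unusedSectionVars false
set_option linter.unusedVariables false

namespace Pool.Agent.Q67.GW

/-- The base. -/
abbrev Y : Type := UnitAddCircle

/-- The fibre. -/
abbrev K : Type := Circle

/-- A homeomorphism of `Y × K` over `Y`, with its inverse. -/
structure Fib where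
  f : C(Y × K, K)
  g : C(Y × K, K)
  gf : ∀ y v, g (y, f (y, v)) = v
  fg : ∀ y v, f (y, g (y, v)) = v

/-- The conjugate of the rotation by `α`. -/
noncomputable def Fib.T (Θ : Fib) (α : Y) : C(Y × K, Y × K) :=
  ⟨fun x => (x.1 + α, Θ.g (x.1 + α, Θ.f x)), by fun_prop⟩

theorem Fib.T_apply (Θ : Fib) (α : Y) (x : Y × K) :
    Θ.T α x = (x.1 + α, Θ.g (x.1 + α, Θ.f x)) := rfl

theorem Fib.T_iter (Θ : Fib) (α : Y) (n : ℕ) (x : Y × K) :
    (Θ.T α)^[n] x = (x.1 + n • α, Θ.g (x.1 + n • α, Θ.f x)) := by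
  induction n with
  | zero => simp [Θ.gf]
  | succ n ih =>
    rw [Function.iterate_succ_apply', ih, Fib.T_apply, Θ.fg, succ_nsmul, add_assoc]

theorem Fib.T_inv (Θ : Fib) (α : Y) (x : Y × K) : Θ.T (-α) (Θ.T α x) = x := by
  rw [Fib.T_apply, Fib.T_apply, Θ.fg]
  simp [Θ.gf]

/-- The composition with the loop `L` run with speed `q`. -/
noncomputable def Fib.comp (Θ L : Fib) (q : ℕ) : Fib where
  f := ⟨fun x => L.f (q • x.1, Θ.f x), by fun_prop⟩
  g := ⟨fun x => Θ.g (x.1, L.g (q • x.1, x.2)), by fun_prop⟩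
  gf := fun y v => by
    show Θ.g (y, L.g (q • y, L.f (q • y, Θ.f (y, v)))) = v
    rw [L.gf, Θ.gf]
  fg := fun y v => by
    show L.f (q • y, Θ.f (y, Θ.g (y, L.g (q • y, v)))) = v
    rw [Θ.fg, L.fg]

theorem Fib.comp_g (Θ L : Fib) (q : ℕ) (y : Y) (v : K) :
    (Θ.comp L q).g (y, v) = Θ.g (y, L.g (q • y, v)) := rfl

theorem Fib.comp_f (Θ L : Fib) (q : ℕ) (x : Y × K) :
    (Θ.comp L q).f x = L.f (q • x.1, Θ.f x) := rfl

theorem unif {P Q : Type*} [PseudoMetricSpace P] [PseudoMetricSpace Q] [CompactSpace P] (h : C(P, Q))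
    {ε : ℝ} (hε : 0 < ε) : ∃ δ > 0, ∀ a b, dist a b < δ → dist (h a) (h b) < ε := by
  obtain ⟨δ, hδ, H⟩ := Metric.uniformContinuous_iff.1
    (CompactSpace.uniformContinuous_of_continuous h.continuous) ε hε
  exact ⟨δ, hδ, fun a b hab => H hab⟩

/-- Slow perturbations are small. -/
theorem comp_close (Θ L : Fib) {ε : ℝ} (hε : 0 < ε) : ∃ δ > 0, ∀ (α : Y) (q : ℕ), ‖q • α‖ < δ →
    dist ((Θ.comp L q).T α) (Θ.T α) < ε := by
  obtain ⟨η, hη, h1⟩ := unif Θ.g hε
  obtain ⟨δ, hδ, h2⟩ := unif L.g hη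
  refine ⟨δ, hδ, fun α q hq => ?_⟩
  rw [ContinuousMap.dist_lt_iff hε]
  intro x
  rw [Fib.T_apply, Fib.T_apply, Prod.dist_eq, Fib.comp_g, Fib.comp_f]
  refine max_lt (by simpa using hε) ?_
  refine h1 _ _ ?_
  rw [Prod.dist_eq]
  refine max_lt (by simpa using hη) ?_
  have h3 := h2 (q • (x.1 + α), L.f (q • x.1, Θ.f x)) (q • x.1, L.f (q • x.1, Θ.f x)) (by
    rw [Prod.dist_eq]
    refine max_lt ?_ (by simpa using hδ)
    simp only [smul_add, dist_eq_norm]
    simpa using hq)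
  rwa [L.gf] at h3

theorem exists_q {α : Y} {δ : ℝ} (hδ : 0 < δ) (N : ℕ) : ∃ q : ℕ, N ≤ q ∧ ‖q • α‖ < δ := by
  have h1 := mapClusterPt_zero_atTop_nsmul α
  have h2 := h1.frequently (Metric.ball_mem_nhds (0 : Y) hδ)
  obtain ⟨q, hq, hq2⟩ := (frequently_atTop.1 h2) N
  refine ⟨q, hq, ?_⟩
  simpa using hq2

theorem hit {α : Y} (hα : DenseRange fun n : ℕ => n • α) {O : Set Y} (hO : IsOpen O)
    (hne : O.Nonempty) (b : Y) : ∃ n : ℕ, b + n • α ∈ O := by
  obtain ⟨t, ht⟩ := hne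
  have h1 : IsOpen ((fun y => b + y) ⁻¹' O) := hO.preimage (by fun_prop)
  obtain ⟨n, hn⟩ := hα.exists_mem_open h1 ⟨t - b, by simpa using ht⟩
  exact ⟨n, hn⟩

theorem norm_coe_le (x : ℝ) : ‖((x : ℝ) : Y)‖ ≤ |x| := by
  rw [UnitAddCircle.norm_eq]
  simpa using round_le x 0

/-- Points with prescribed multiple near a given point. -/
theorem exists_near (t₀ s : Y) {q : ℕ} (hq : 1 ≤ q) : ∃ t : Y, q • t = s ∧ dist t t₀ ≤ 1 / q := by
  have hq0 : (0 : ℝ) < q := by exact_mod_cast hq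
  obtain ⟨x, hx⟩ := QuotientAddGroup.mk_surjective (s - q • t₀)
  refine ⟨t₀ + ((Int.fract x / q : ℝ) : Y), ?_, ?_⟩
  · rw [smul_add]
    have h1 : q • ((Int.fract x / q : ℝ) : Y) = ((x : ℝ) : Y) := by
      rw [← AddCircle.coe_nsmul, nsmul_eq_mul, mul_div_cancel₀ _ hq0.ne']
      have : x = Int.fract x + ⌊x⌋ := (Int.fract_add_floor x).symm
      conv_rhs => rw [this]
      rw [AddCircle.coe_add]
      simp
    rw [h1]
    have h2 : ((x : ℝ) : Y) = s - q • t₀ := hx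
    rw [h2]
    abel
  · rw [dist_eq_norm, add_sub_cancel_left]
    refine (norm_coe_le _).trans ?_
    rw [abs_of_nonneg (div_nonneg (Int.fract_nonneg x) hq0.le)]
    exact div_le_div_of_nonneg_right (Int.fract_lt_one x).le hq0.le

end Pool.Agent.Q67.GW
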