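import Pool.Agent.Q67.GW.Generic
import Pool.Agent.Q67.PI.Tower

/-!
The system.
-/

open Set Filter Topology Pool.Agent.Q67.PI

set_option autoImplicit false
set_option linter.unusedSectionVars false
set_option linter.unusedVariables false

namespace Pool.Agent.Q67.GW

/-- The rotation of the circle by `α`. -/
noncomputable def rotation (α : Y) : Sys.{0} where
  X := Y
  T := Homeomorph.addRight α

/-- The system is equicontinuous. -/
def Equicontinuous (A : Sys.{0}) : Prop :=
  ∀ ε > 0, ∃ δ > 0, ∀ x x' : A.X, dist x x' < δ → ∀ n : ℤ, dist ((A.T ^ n) x) ((A.T ^ n) x') < ε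

/-- A homeomorphism of the torus as a system. -/
noncomputable def torus (T : (Y × K) ≃ₜ (Y × K)) : Sys.{0} where
  X := Y × K
  T := T

theorem dense_nsmul {α : ℝ} (hα : Irrational α) : DenseRange fun n : ℕ => n • ((α : ℝ) : Y) := by
  rw [← denseRange_zsmul_iff_nsmul, AddCircle.denseRange_zsmul_coe_iff]
  simpa using hα

theorem rot_it (α : Y) (n : ℤ) (y : Y) : it (Homeomorph.addRight α) n y = y + n • α := by
  induction n using Int.induction_on generalizing y with
  | zero => simp [it]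
  | succ n ih =>
    have e1 : it (Homeomorph.addRight α) (n + 1) y =
        it (Homeomorph.addRight α) n (Homeomorph.addRight α y) := by simp [it, zpow_add]
    rw [e1, ih, Homeomorph.coe_addRight, add_smul, one_smul, add_comm ((n : ℤ) • α) α, add_assoc]
  | pred n ih =>
    have e1 : it (Homeomorph.addRight α) (-n - 1) y =
        it (Homeomorph.addRight α) (-n) ((Homeomorph.addRight α)⁻¹ y) := by
      simp [it, zpow_sub]
    have e2 : (Homeomorph.addRight α)⁻¹ y = y + -α := rfl
    rw [e1, e2, ih, sub_smul, one_smul]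
    abel

theorem it_nat {X : Type*} [TopologicalSpace X] (T : X ≃ₜ X) (n : ℕ) (x : X) :
    it T n x = (T : X → X)^[n] x := by
  induction n with
  | zero => simp [it]
  | succ n ih =>
    rw [Function.iterate_succ_apply', ← ih]
    push_cast
    rw [add_comm, (it_act T).add]
    simp [it]

/-! ### A tower of length two -/

/-- The one point system. -/
noncomputable def pt : Sys.{0} where
  X := Unit
  T := Homeomorph.refl _

/-- The three systems of the tower. -/
noncomputable def Zn (A B : Sys.{0}) : ℕ → Sys.{0}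
  | 0 => pt
  | 1 => B
  | _ + 2 => A

/-- The maps of the tower. -/
noncomputable def pn (A B : Sys.{0}) (π : A.X → B.X) : ∀ m n : ℕ, (Zn A B n).X → (Zn A B m).X
  | 0, _ => fun _ => ()
  | 1, 0 => fun _ => Classical.choice B.nonempty
  | 1, 1 => id
  | 1, _ + 2 => π
  | _ + 2, 0 => fun _ => Classical.choice A.nonempty
  | _ + 2, 1 => fun _ => Classical.choice A.nonempty
  | _ + 2, _ + 2 => id

open Classical in
/-- The level of an ordinal. -/
noncomputable def lev (lam : Ordinal.{0}) : ℕ := if lam = 0 then 0 else if lam = 1 then 1 else 2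

theorem lev_zero : lev 0 = 0 := by simp [lev]

theorem lev_one : lev 1 = 1 := by simp [lev]

theorem lev_two : lev 2 = 2 := by
  have h1 : (2 : Ordinal.{0}) ≠ 0 := two_ne_zero
  have h2 : (2 : Ordinal.{0}) ≠ 1 := by
    intro h
    have : ((2 : ℕ) : Ordinal.{0}) = ((1 : ℕ) : Ordinal.{0}) := by exact_mod_cast h
    rw [Nat.cast_inj] at this
    omega
  simp [lev, h1, h2]

theorem lev_mono {ν lam : Ordinal.{0}} (h : ν ≤ lam) : lev ν ≤ lev lam := by
  unfold lev
  by_cases h0 : ν = 0
  · simp [h0]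
  have hl0 : lam ≠ 0 := by
    rintro rfl
    exact h0 (le_antisymm h zero_le)
  rw [if_neg h0, if_neg hl0]
  by_cases h1 : ν = 1
  · rw [if_pos h1]
    split_ifs <;> omega
  · have hl1 : lam ≠ 1 := by
      rintro rfl
      have : ν < 1 := lt_of_le_of_ne h h1
      rw [Order.lt_one_iff] at this
      exact h0 this
    rw [if_neg h1, if_neg hl1]

theorem le_two {lam : Ordinal.{0}} (h : lam ≤ 2) : lam = 0 ∨ lam = 1 ∨ lam = 2 := by
  have h2 : (2 : Ordinal.{0}) = 1 + 1 := one_add_one_eq_two.symm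
  rcases h.lt_or_eq with h | h
  · rw [h2, ← Order.succ_eq_add_one, Order.lt_succ_iff] at h
    rcases h.lt_or_eq with h | h
    · exact Or.inl (Order.lt_one_iff.1 h)
    · exact Or.inr (Or.inl h)
  · exact Or.inr (Or.inr h)

theorem isPI_of {A B : Sys.{0}} {π : A.X → B.X} (hA : A.Minimal) (hB : B.Minimal)
    (hπ : FactorMap A B π) (hp : Proximal A B π) (he : Equicontinuous B) :
    Sys.IsPI.{0, 0} A := by
  have hmin : ∀ n, (Zn A B n).Minimal := by
    intro n
    match n with
    | 0 => intro x; exact eq_univ_iff_forall.2 fun y => by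
             have : y = x := rfl
             rw [this]
             exact subset_closure ⟨0, rfl⟩
    | 1 => exact hB
    | _ + 2 => exact hA
  have hid : ∀ C : Sys.{0}, FactorMap C C id := fun C => ⟨continuous_id, Function.surjective_id, fun _ => rfl⟩
  have hpt : ∀ C : Sys.{0}, FactorMap C pt fun _ => () := fun C =>
    ⟨continuous_const, fun u => ⟨Classical.choice C.nonempty, rfl⟩, fun _ => rfl⟩
  have hfac : ∀ m n, m ≤ n → FactorMap (Zn A B n) (Zn A B m) (pn A B π m n) := by
    intro m n hmn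
    match m, n, hmn with
    | 0, n, _ => exact hpt _
    | 1, 0, h => exact absurd h (by omega)
    | 1, 1, _ => exact hid _
    | 1, _ + 2, _ => exact hπ
    | _ + 2, 0, h => exact absurd h (by omega)
    | _ + 2, 1, h => exact absurd h (by omega)
    | _ + 2, _ + 2, _ => exact hid _
  have hcomp : ∀ k m n, k ≤ m → m ≤ n → ∀ x, pn A B π k m (pn A B π m n x) = pn A B π k n x := by
    intro k m n hkm hmn x
    match k, m, n, hkm, hmn with
    | 0, _, _, _, _ => rfl
    | 1, 1, 1, _, _ => rfl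
    | 1, 1, _ + 2, _, _ => rfl
    | 1, _ + 2, _ + 2, _, _ => rfl
    | _ + 2, _ + 2, _ + 2, _, _ => rfl
    | 1, 0, _, h, _ => exact absurd h (by omega)
    | 1, 1, 0, _, h => exact absurd h (by omega)
    | 1, _ + 2, 0, _, h => exact absurd h (by omega)
    | 1, _ + 2, 1, _, h => exact absurd h (by omega)
    | _ + 2, 0, _, h, _ => exact absurd h (by omega)
    | _ + 2, 1, _, h, _ => exact absurd h (by omega)
    | _ + 2, _ + 2, 0, _, h => exact absurd h (by omega)
    | _ + 2, _ + 2, 1, _, h => exact absurd h (by omega)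
  have h2 : (2 : Ordinal.{0}) = 1 + 1 := one_add_one_eq_two.symm
  refine ⟨hA, 2, fun lam => Zn A B (lev lam), fun ν lam => pn A B π (lev ν) (lev lam),
    ⟨fun lam _ => hmin _, fun lam _ ν hν => hfac _ _ (lev_mono hν),
      fun lam _ ν hν κ hκ x => hcomp _ _ _ (lev_mono hκ) (lev_mono hν) x, ?_, ?_, ?_⟩, ?_⟩
  · show Subsingleton (Zn A B (lev 0)).X
    rw [lev_zero]
    exact inferInstanceAs (Subsingleton Unit)
  · intro lam hlam
    rcases le_two hlam.le with rfl | rfl | rfl
    · right
      show Equicont (Zn A B (lev (0 + 1))) (Zn A B (lev 0)) (pn A B π (lev 0) (lev (0 + 1)))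
      rw [zero_add, lev_one, lev_zero]
      intro ε hε
      obtain ⟨δ, hδ, h⟩ := he ε hε
      exact ⟨δ, hδ, fun x x' _ hxx n => h x x' hxx n⟩
    · left
      show Proximal (Zn A B (lev (1 + 1))) (Zn A B (lev 1)) (pn A B π (lev 1) (lev (1 + 1)))
      rw [← h2, lev_one, lev_two]
      exact hp
    · exact absurd hlam (lt_irrefl _)
  · intro lam hlam hlim
    rcases le_two hlam with rfl | rfl | rfl
    · exact absurd hlim (by simp)
    · refine absurd hlim ?_
      have : (1 : Ordinal.{0}) = Order.succ 0 := by simp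
      rw [this]
      exact Order.not_isSuccLimit_succ 0
    · refine absurd hlim ?_
      rw [h2, ← Order.succ_eq_add_one]
      exact Order.not_isSuccLimit_succ 1
  · have key : ∀ n, n = 2 → ∃ φ : (Zn A B n).X → A.X, FactorMap (Zn A B n) A φ ∧
        Proximal (Zn A B n) A φ := by
      rintro n rfl
      refine ⟨id, hid _, fun x x' hxx ε hε => ⟨0, ?_⟩⟩
      have hxx' : x = x' := hxx
      rw [hxx', dist_self]
      exact hε
    exact key _ lev_two

/-- The main theorem. -/
theorem main {α : ℝ} (hα : Irrational α) : ∃ T : (Y × K) ≃ₜ (Y × K),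
    Sys.IsPI.{0, 0} (torus T) ∧ FactorMap (torus T) (rotation (α : Y)) Prod.fst ∧
    Equicontinuous (rotation (α : Y)) ∧ IsOpenMap (Prod.fst : Y × K → Y) ∧
    Proximal (torus T) (rotation (α : Y)) Prod.fst ∧
    ¬ Function.Injective (Prod.fst : Y × K → Y) ∧
    ∀ z : (Y × K) × (Y × K), MinimalPoint (T.prodCongr (T ^ 2)) z := by
  obtain ⟨T₀, S₀, h1, h2, h3, h4, h5⟩ := exists_generic (dense_nsmul hα)
  let T : (Y × K) ≃ₜ (Y × K) :=
    { toFun := T₀, invFun := S₀, left_inv := h1, right_inv := h2,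
      continuous_toFun := T₀.continuous, continuous_invFun := S₀.continuous }
  have hT : (T : Y × K → Y × K) = T₀ := rfl
  have hequi : ∀ x, (T x).1 = Homeomorph.addRight ((α : ℝ) : Y) x.1 := fun x => h3 x
  have hbase : ∀ (n : ℤ) (x : Y × K), (it T n x).1 = x.1 + n • ((α : ℝ) : Y) := by
    intro n x
    rw [← rot_it]
    exact it_map (π := (Prod.fst : Y × K → Y)) hequi n x
  have hminT : ∀ x : Y × K, OC (it T) x = univ := by
    intro x
    rw [eq_univ_iff_forall]
    intro y
    rw [OC, mem_closure_iff]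
    intro O hO hyO
    obtain ⟨I, J, hI, hJ, hyI, hyJ, hIJ⟩ := isOpen_prod_iff.1 hO y.1 y.2 hyO
    obtain ⟨n, e1, e2, _⟩ := h4 I J univ hI hJ isOpen_univ ⟨_, hyI⟩ ⟨_, hyJ⟩ ⟨1, trivial⟩ x x
    refine ⟨it T n x, ?_, ⟨n, rfl⟩⟩
    rw [it_nat, hT]
    exact hIJ ⟨e1, e2⟩
  have hmin : (torus T).Minimal := hminT
  have hfac : FactorMap (torus T) (rotation ((α : ℝ) : Y)) (Prod.fst : Y × K → Y) :=
    ⟨continuous_fst, Prod.fst_surjective, hequi⟩
  have hminR : ∀ y : Y, OC (it (Homeomorph.addRight ((α : ℝ) : Y))) y = univ := by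
    intro y
    have := OC_image (ρ := it T) (θ := it (Homeomorph.addRight ((α : ℝ) : Y)))
      (f := (Prod.fst : Y × K → Y)) continuous_fst (it_map hequi) (y, (1 : K))
    rw [hminT, image_univ, range_eq_univ.2 Prod.fst_surjective] at this
    exact this.symm
  have hminB : (rotation ((α : ℝ) : Y)).Minimal := hminR
  have hB : Equicontinuous (rotation ((α : ℝ) : Y)) := by
    intro ε hε
    have key : ∀ (x x' : Y), dist x x' < ε → ∀ n : ℤ,
        dist (it (Homeomorph.addRight ((α : ℝ) : Y)) n x)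
          (it (Homeomorph.addRight ((α : ℝ) : Y)) n x') < ε := by
      intro x x' hxx n
      rw [rot_it, rot_it, dist_add_right]
      exact hxx
    exact ⟨ε, hε, fun x x' hxx n => key x x' hxx n⟩
  have hprox : Proximal (torus T) (rotation ((α : ℝ) : Y)) (Prod.fst : Y × K → Y) := by
    rintro ⟨y, v⟩ ⟨y', v'⟩ hyy ε hε
    have hyy' : y = y' := hyy
    subst hyy'
    obtain ⟨n, hn⟩ := h5 ε hε y v v'
    refine ⟨n, ?_⟩
    show dist (it T n (y, v)) (it T n (y, v')) < ε
    rw [it_nat, it_nat, hT]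
    exact hn
  refine ⟨T, isPI_of hmin hminB hfac hprox hB, hfac, hB, isOpenMap_fst, hprox, ?_, ?_⟩
  · intro hinj
    have h7 := hinj (a₁ := ((0 : Y), (1 : K))) (a₂ := ((0 : Y), (-1 : K))) rfl
    have h8 : (1 : K) = -1 := congrArg Prod.snd h7
    have h9 : (1 : ℂ) = -1 := by
      have := congrArg (fun z : Circle => (z : ℂ)) h8
      simpa using this
    norm_num at h9
  · -- minimality of the invariant sets
    have hS : ∀ (n : ℤ) (z : (Y × K) × (Y × K)),
        it (T.prodCongr (T ^ 2)) n z = (it T n z.1, it T (2 * n) z.2) := by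
      intro n z
      have e1 := it_map (T := T.prodCongr (T ^ 2)) (S := T)
        (π := (Prod.fst : (Y × K) × (Y × K) → Y × K)) (fun z => rfl) n z
      have e2 := it_map (T := T.prodCongr (T ^ 2)) (S := T ^ 2)
        (π := (Prod.snd : (Y × K) × (Y × K) → Y × K)) (fun z => rfl) n z
      refine Prod.ext e1 ?_
      rw [e2]
      show ((T ^ 2) ^ n) z.2 = (T ^ (2 * n)) z.2
      rw [zpow_mul]
      rfl
    have hOC : ∀ z : (Y × K) × (Y × K), orbitClosure (T.prodCongr (T ^ 2)) z =
        {w | w.1.1 + w.1.1 - w.2.1 = z.1.1 + z.1.1 - z.2.1} := by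
      intro z
      refine Subset.antisymm ?_ ?_
      · refine closure_minimal ?_ (isClosed_eq (by fun_prop) continuous_const)
        rintro _ ⟨n, rfl⟩
        show (it (T.prodCongr (T ^ 2)) n z).1.1 + (it (T.prodCongr (T ^ 2)) n z).1.1 -
          (it (T.prodCongr (T ^ 2)) n z).2.1 = z.1.1 + z.1.1 - z.2.1
        rw [hS]
        simp only [hbase]
        rw [two_mul, add_smul]
        abel
      · intro w hw
        have hw' : w.1.1 + w.1.1 - w.2.1 = z.1.1 + z.1.1 - z.2.1 := hw
        rw [orbitClosure, mem_closure_iff]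
        intro O hO hwO
        obtain ⟨O₁, O₂, hO₁, hO₂, hw1, hw2, hOO⟩ := isOpen_prod_iff.1 hO w.1 w.2 hwO
        obtain ⟨I₁, J₁, hI₁, hJ₁, hwI₁, hwJ₁, hIJ₁⟩ := isOpen_prod_iff.1 hO₁ w.1.1 w.1.2 hw1
        obtain ⟨I₂, J₂, hI₂, hJ₂, hwI₂, hwJ₂, hIJ₂⟩ := isOpen_prod_iff.1 hO₂ w.2.1 w.2.2 hw2
        have hI : IsOpen (I₁ ∩ (fun t : Y => t + t - (z.1.1 + z.1.1 - z.2.1)) ⁻¹' I₂) :=
          hI₁.inter (hI₂.preimage (by fun_prop))
        obtain ⟨n, e1, e2, e3⟩ := h4 _ J₁ J₂ hI hJ₁ hJ₂ ⟨w.1.1, hwI₁, by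
          rw [mem_preimage, ← hw', sub_sub_cancel]
          exact hwI₂⟩ ⟨_, hwJ₁⟩ ⟨_, hwJ₂⟩ z.1 z.2
        refine ⟨it (T.prodCongr (T ^ 2)) n z, ?_, ⟨n, rfl⟩⟩
        rw [hS]
        refine hOO ⟨?_, ?_⟩
        · rw [it_nat, hT]
          exact hIJ₁ ⟨e1.1, e2⟩
        · have e4 : it T (2 * (n : ℤ)) z.2 = (T₀ : Y × K → Y × K)^[2 * n] z.2 := by
            rw [← hT, ← it_nat]
            push_cast
            rfl
          refine hIJ₂ ⟨?_, ?_⟩
          · have e5 : (it T (2 * (n : ℤ)) z.2).1 =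
                ((T₀ : Y × K → Y × K)^[n] z.1).1 + ((T₀ : Y × K → Y × K)^[n] z.1).1 -
                  (z.1.1 + z.1.1 - z.2.1) := by
              rw [← hT, ← it_nat, hbase, hbase, two_mul, add_smul]
              abel
            show (it T (2 * (n : ℤ)) z.2).1 ∈ I₂
            rw [e5]
            exact e1.2
          · show (it T (2 * (n : ℤ)) z.2).2 ∈ J₂
            rw [e4]
            exact e3
    intro z w hw
    rw [hOC] at hw
    have hw' : w.1.1 + w.1.1 - w.2.1 = z.1.1 + z.1.1 - z.2.1 := hw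
    rw [hOC, hOC, hw']

end Pool.Agent.Q67.GW
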