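import Pool.Agent.Q67.GW.Loops

/-!
The generic limit of coboundaries: existence of the skew product.
-/

open Set Filter Topology

set_option autoImplicit false
set_option linter.unusedSectionVars false
set_option linter.unusedVariables false

namespace Pool.Agent.Q67.GW

/-- The space of pairs of maps. -/
abbrev W : Type := C(Y × K, Y × K) × C(Y × K, Y × K)

theorem baire_gen {P : Type*} [MetricSpace P] [CompactSpace P] (A : Set (C(P, P) × C(P, P)))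
    (hA : IsClosed A) : BaireSpace A := by
  have : CompleteSpace A := hA.completeSpace_coe
  infer_instance

theorem baire (A : Set W) (hA : IsClosed A) : BaireSpace A := baire_gen A hA

/-- The pair of a conjugate of the rotation and its inverse. -/
noncomputable def Fib.pair (Θ : Fib) (α : Y) : W := (Θ.T α, Θ.T (-α))

theorem pair_close (Θ L : Fib) {ε : ℝ} (hε : 0 < ε) : ∃ δ > 0, ∀ (α : Y) (q : ℕ), ‖q • α‖ < δ →
    dist ((Θ.comp L q).pair α) (Θ.pair α) < ε := by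
  obtain ⟨δ, hδ, h⟩ := comp_close Θ L hε
  refine ⟨δ, hδ, fun α q hq => ?_⟩
  rw [Prod.dist_eq]
  refine max_lt (h α q hq) (h (-α) q ?_)
  rwa [smul_neg, norm_neg]

/-- Density for minimality. -/
theorem dense_min {α : Y} (hα : DenseRange fun n : ℕ => n • α) (Θ : Fib) {ε : ℝ} (hε : 0 < ε)
    {I : Set Y} {J₁ J₂ : Set K} (hI : IsOpen I) (hJ₁ : IsOpen J₁) (hJ₂ : IsOpen J₂)
    (hIne : I.Nonempty) (hJ₁ne : J₁.Nonempty) (hJ₂ne : J₂.Nonempty) :
    ∃ Θ' : Fib, dist (Θ'.pair α) (Θ.pair α) < ε ∧ ∀ x₁ x₂ : Y × K, ∃ n : ℕ,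
      ((Θ'.T α)^[n] x₁).1 ∈ I ∧ ((Θ'.T α)^[n] x₁).2 ∈ J₁ ∧ ((Θ'.T α)^[2 * n] x₂).2 ∈ J₂ := by
  obtain ⟨t₀, ht₀⟩ := hIne
  obtain ⟨p₁, hp₁⟩ := hJ₁ne
  obtain ⟨p₂, hp₂⟩ := hJ₂ne
  obtain ⟨ε₁, hε₁, hb₁⟩ := Metric.isOpen_iff.1 hJ₁ p₁ hp₁
  obtain ⟨ε₂, hε₂, hb₂⟩ := Metric.isOpen_iff.1 hJ₂ p₂ hp₂
  obtain ⟨ρ₀, hρ₀, hbI⟩ := Metric.isOpen_iff.1 hI t₀ ht₀
  obtain ⟨η, hη, hg⟩ := unif Θ.g (lt_min hε₁ hε₂)
  obtain ⟨ρ₁, hρ₁, hf⟩ := unif Θ.f (half_pos hη)
  obtain ⟨L, hL⟩ := loop_min (half_pos hη)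
  obtain ⟨δ, hδ, hclose⟩ := pair_close Θ L hε
  obtain ⟨N, hN⟩ := exists_nat_gt (2 / min ρ₀ ρ₁)
  obtain ⟨q, hqN, hq⟩ := exists_q (α := α) hδ (N + 1)
  refine ⟨Θ.comp L q, hclose α q hq, fun x₁ x₂ => ?_⟩
  have hq1 : 1 ≤ q := by omega
  have hq0 : (0 : ℝ) < q := by exact_mod_cast hq1
  have hρ : 0 < min ρ₀ ρ₁ := lt_min hρ₀ hρ₁
  have hqρ : 2 * (1 / (q : ℝ)) < min ρ₀ ρ₁ := by
    have h1 : (N : ℝ) < q := by exact_mod_cast hqN
    have h2 := hN.trans h1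
    rw [div_lt_iff₀ hρ] at h2
    rw [mul_one_div, div_lt_iff₀ hq0]
    linarith
  set w₁ := (Θ.comp L q).f x₁ with hw₁
  set w₂ := (Θ.comp L q).f x₂ with hw₂
  set c : Y := x₁.1 + x₁.1 - x₂.1 with hc
  obtain ⟨s, hs₁, hs₂⟩ := hL (q • c) w₁ w₂ (Θ.f (t₀, p₁)) (Θ.f (t₀ + t₀ - c, p₂))
  obtain ⟨t, hts, htd⟩ := exists_near t₀ s hq1
  -- the open set of good times
  have hgc : Continuous (Θ.comp L q).g := (Θ.comp L q).g.continuous
  have hO : IsOpen {t : Y | t ∈ I ∧ (Θ.comp L q).g (t, w₁) ∈ J₁ ∧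
      (Θ.comp L q).g (t + t - c, w₂) ∈ J₂} := by
    refine hI.inter ((hJ₁.preimage ?_).inter (hJ₂.preimage ?_))
    · exact hgc.comp (by fun_prop)
    · exact hgc.comp (by fun_prop)
  have hpos : (0 : ℝ) < 1 / q := by positivity
  have htρ : dist t t₀ < min ρ₀ ρ₁ := by linarith
  have htne : t ∈ {t : Y | t ∈ I ∧ (Θ.comp L q).g (t, w₁) ∈ J₁ ∧
      (Θ.comp L q).g (t + t - c, w₂) ∈ J₂} := by
    refine ⟨hbI (htρ.trans_le (min_le_left _ _)), ?_, ?_⟩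
    · refine hb₁ ?_
      rw [Metric.mem_ball, Fib.comp_g, hts]
      have h1 : dist (Θ.f (t₀, p₁)) (Θ.f (t, p₁)) < η / 2 := hf _ _ (by
        rw [Prod.dist_eq]
        refine max_lt ?_ (by simpa using hρ₁)
        rw [dist_comm]
        exact htρ.trans_le (min_le_right _ _))
      have h2 : dist (L.g (s, w₁)) (Θ.f (t, p₁)) < η := by
        have := dist_triangle (L.g (s, w₁)) (Θ.f (t₀, p₁)) (Θ.f (t, p₁))
        linarith
      have h3 := hg (t, L.g (s, w₁)) (t, Θ.f (t, p₁)) (by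
        rw [Prod.dist_eq]
        exact max_lt (by simpa using hη) h2)
      rw [Θ.gf] at h3
      exact h3.trans_le (min_le_left _ _)
    · refine hb₂ ?_
      rw [Metric.mem_ball, Fib.comp_g]
      have h0 : q • (t + t - c) = s + s - q • c := by
        rw [smul_sub, smul_add, hts]
      rw [h0]
      have h4 : dist (t₀ + t₀ - c) (t + t - c) < ρ₁ := by
        rw [dist_sub_right]
        calc dist (t₀ + t₀) (t + t) ≤ dist t₀ t + dist t₀ t := dist_add_add_le _ _ _ _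
          _ ≤ 1 / q + 1 / q := by rw [dist_comm]; exact add_le_add htd htd
          _ < ρ₁ := by
            have := min_le_right ρ₀ ρ₁
            linarith
      have h1 : dist (Θ.f (t₀ + t₀ - c, p₂)) (Θ.f (t + t - c, p₂)) < η / 2 := hf _ _ (by
        rw [Prod.dist_eq]
        exact max_lt h4 (by simpa using hρ₁))
      have h2 : dist (L.g (s + s - q • c, w₂)) (Θ.f (t + t - c, p₂)) < η := by
        have := dist_triangle (L.g (s + s - q • c, w₂)) (Θ.f (t₀ + t₀ - c, p₂))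
          (Θ.f (t + t - c, p₂))
        linarith
      have h3 := hg (t + t - c, L.g (s + s - q • c, w₂)) (t + t - c, Θ.f (t + t - c, p₂)) (by
        rw [Prod.dist_eq]
        exact max_lt (by simpa using hη) h2)
      rw [Θ.gf] at h3
      exact h3.trans_le (min_le_right _ _)
  obtain ⟨n, hn1, hn2, hn3⟩ := hit hα hO ⟨t, htne⟩ x₁.1
  refine ⟨n, ?_, ?_, ?_⟩
  · rw [Fib.T_iter]
    exact hn1
  · rw [Fib.T_iter]
    exact hn2
  · rw [Fib.T_iter]
    have h5 : x₂.1 + (2 * n) • α = (x₁.1 + n • α) + (x₁.1 + n • α) - c := by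
      rw [hc, two_mul, add_smul]
      abel
    rw [h5]
    exact hn3

/-- Density for proximality. -/
theorem dense_prox {α : Y} (hα : DenseRange fun n : ℕ => n • α) (Θ : Fib) {ε ε₁ : ℝ} (hε : 0 < ε)
    (hε₁ : 0 < ε₁) : ∃ Θ' : Fib, dist (Θ'.pair α) (Θ.pair α) < ε ∧ ∀ (y : Y) (v v' : K), ∃ n : ℕ,
      dist ((Θ'.T α)^[n] (y, v)) ((Θ'.T α)^[n] (y, v')) < ε₁ := by
  obtain ⟨η, hη, hg⟩ := unif Θ.g hε₁
  obtain ⟨L, hL⟩ := loop_prox hη
  obtain ⟨δ, hδ, hclose⟩ := pair_close Θ L hε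
  obtain ⟨q, hq1, hq⟩ := exists_q (α := α) hδ 1
  refine ⟨Θ.comp L q, hclose α q hq, fun y v v' => ?_⟩
  set w := (Θ.comp L q).f (y, v) with hw
  set w' := (Θ.comp L q).f (y, v') with hw'
  obtain ⟨s, hs⟩ := hL w w'
  obtain ⟨t, hts, _⟩ := exists_near 0 s hq1
  have hgc : Continuous (Θ.comp L q).g := (Θ.comp L q).g.continuous
  have hO : IsOpen {t : Y | dist ((Θ.comp L q).g (t, w)) ((Θ.comp L q).g (t, w')) < ε₁} := by
    refine isOpen_lt (Continuous.dist ?_ ?_) continuous_const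
    · exact hgc.comp (by fun_prop)
    · exact hgc.comp (by fun_prop)
  have htne : t ∈ {t : Y | dist ((Θ.comp L q).g (t, w)) ((Θ.comp L q).g (t, w')) < ε₁} := by
    show dist ((Θ.comp L q).g (t, w)) ((Θ.comp L q).g (t, w')) < ε₁
    rw [Fib.comp_g, Fib.comp_g, hts]
    refine hg _ _ ?_
    rw [Prod.dist_eq]
    exact max_lt (by simpa using hη) hs
  obtain ⟨n, hn⟩ := hit hα hO ⟨t, htne⟩ y
  refine ⟨n, ?_⟩
  rw [Fib.T_iter, Fib.T_iter, Prod.dist_eq]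
  exact max_lt (by simpa using hε₁) hn

theorem isOpen_forall {P C : Type*} [TopologicalSpace P] [TopologicalSpace C] [CompactSpace C]
    {U : Set (P × C)} (hU : IsOpen U) : IsOpen {p : P | ∀ c, (p, c) ∈ U} := by
  have h1 : IsClosed (Prod.fst '' Uᶜ : Set P) := isClosedMap_fst_of_compactSpace _ hU.isClosed_compl
  convert h1.isOpen_compl using 1
  ext p
  simp

theorem continuous_iter (n : ℕ) : Continuous fun z : C(Y × K, Y × K) × (Y × K) => (z.1)^[n] z.2 := by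
  induction n with
  | zero =>
    simp only [Function.iterate_zero, id]
    exact continuous_snd
  | succ n ih =>
    simp only [Function.iterate_succ_apply']
    exact Continuous.eval continuous_fst ih

theorem open_min {I : Set Y} {J₁ J₂ : Set K} (hI : IsOpen I) (hJ₁ : IsOpen J₁)
    (hJ₂ : IsOpen J₂) : IsOpen {p : W | ∀ x : (Y × K) × (Y × K), ∃ n : ℕ,
      ((p.1)^[n] x.1).1 ∈ I ∧ ((p.1)^[n] x.1).2 ∈ J₁ ∧ ((p.1)^[2 * n] x.2).2 ∈ J₂} := by
  refine isOpen_forall (U := {z : W × ((Y × K) × (Y × K)) | ∃ n : ℕ,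
      ((z.1.1)^[n] z.2.1).1 ∈ I ∧ ((z.1.1)^[n] z.2.1).2 ∈ J₁ ∧ ((z.1.1)^[2 * n] z.2.2).2 ∈ J₂}) ?_
  rw [ofPred_exists]
  refine isOpen_iUnion fun n => ?_
  have e1 : Continuous fun z : W × ((Y × K) × (Y × K)) => (z.1.1)^[n] z.2.1 :=
    (continuous_iter n).comp (f := fun z : W × ((Y × K) × (Y × K)) => (z.1.1, z.2.1)) (by fun_prop)
  have e2 : Continuous fun z : W × ((Y × K) × (Y × K)) => (z.1.1)^[2 * n] z.2.2 :=
    (continuous_iter (2 * n)).comp (f := fun z : W × ((Y × K) × (Y × K)) => (z.1.1, z.2.2))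
      (by fun_prop)
  exact (hI.preimage (continuous_fst.comp e1)).inter ((hJ₁.preimage (continuous_snd.comp e1)).inter
    (hJ₂.preimage (continuous_snd.comp e2)))

theorem open_prox (ε₁ : ℝ) : IsOpen {p : W | ∀ x : Y × K × K, ∃ n : ℕ,
      dist ((p.1)^[n] (x.1, x.2.1)) ((p.1)^[n] (x.1, x.2.2)) < ε₁} := by
  refine isOpen_forall (U := {z : W × (Y × K × K) | ∃ n : ℕ,
      dist ((z.1.1)^[n] (z.2.1, z.2.2.1)) ((z.1.1)^[n] (z.2.1, z.2.2.2)) < ε₁}) ?_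
  rw [ofPred_exists]
  refine isOpen_iUnion fun n => ?_
  have e1 : Continuous fun z : W × (Y × K × K) => (z.1.1)^[n] (z.2.1, z.2.2.1) :=
    (continuous_iter n).comp (f := fun z : W × (Y × K × K) => (z.1.1, (z.2.1, z.2.2.1)))
      (by fun_prop)
  have e2 : Continuous fun z : W × (Y × K × K) => (z.1.1)^[n] (z.2.1, z.2.2.2) :=
    (continuous_iter n).comp (f := fun z : W × (Y × K × K) => (z.1.1, (z.2.1, z.2.2.2)))
      (by fun_prop)
  exact isOpen_lt (e1.dist e2) continuous_const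

/-- The skew product. -/
theorem exists_generic {α : Y} (hα : DenseRange fun n : ℕ => n • α) :
    ∃ T S : C(Y × K, Y × K), (∀ x, S (T x) = x) ∧ (∀ x, T (S x) = x) ∧
      (∀ x, (T x).1 = x.1 + α) ∧
      (∀ (I : Set Y) (J₁ J₂ : Set K), IsOpen I → IsOpen J₁ → IsOpen J₂ → I.Nonempty →
        J₁.Nonempty → J₂.Nonempty → ∀ x₁ x₂ : Y × K, ∃ n : ℕ,
          ((T : Y × K → Y × K)^[n] x₁).1 ∈ I ∧ ((T : Y × K → Y × K)^[n] x₁).2 ∈ J₁ ∧
            ((T : Y × K → Y × K)^[2 * n] x₂).2 ∈ J₂) ∧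
      ∀ (ε : ℝ), 0 < ε → ∀ (y : Y) (v v' : K), ∃ n : ℕ,
        dist ((T : Y × K → Y × K)^[n] (y, v)) ((T : Y × K → Y × K)^[n] (y, v')) < ε := by
  let A : Set W := range fun Θ : Fib => Θ.pair α
  have hAc : IsClosed (closure A) := isClosed_closure
  have : BaireSpace (closure A) := baire _ hAc
  have hΘ₀ : Nonempty Fib := ⟨rotLoop (ContinuousMap.const _ 1)⟩
  obtain ⟨Θ₀⟩ := hΘ₀
  have : Nonempty (closure A) := ⟨⟨Θ₀.pair α, subset_closure ⟨Θ₀, rfl⟩⟩⟩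
  -- dense open sets
  have hdense : ∀ O : Set W, (∀ (Θ : Fib) (ε : ℝ), 0 < ε → ∃ Θ' : Fib,
      dist (Θ'.pair α) (Θ.pair α) < ε ∧ Θ'.pair α ∈ O) →
      Dense (Subtype.val ⁻¹' O : Set (closure A)) := by
    intro O hO
    refine dense_iff_inter_open.2 ?_
    rintro _ ⟨V, hV, rfl⟩ ⟨⟨x, hx⟩, hxV⟩
    obtain ⟨_, hzV, ⟨Θ, rfl⟩⟩ := mem_closure_iff.1 hx V hV hxV
    obtain ⟨ε, hε, hb⟩ := Metric.isOpen_iff.1 hV _ hzV
    obtain ⟨Θ', h1, h2⟩ := hO Θ ε hε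
    exact ⟨⟨Θ'.pair α, subset_closure ⟨Θ', rfl⟩⟩, hb h1, h2⟩
  set BY := TopologicalSpace.countableBasis Y with hBY
  set BK := TopologicalSpace.countableBasis K with hBK
  have hbY : TopologicalSpace.IsTopologicalBasis BY := TopologicalSpace.isBasis_countableBasis Y
  have hbK : TopologicalSpace.IsTopologicalBasis BK := TopologicalSpace.isBasis_countableBasis K
  let Q1 : Set (Set Y × Set K × Set K) := BY ×ˢ (BK ×ˢ BK)
  have hQ1 : Q1.Countable := (TopologicalSpace.countable_countableBasis Y).prod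
    ((TopologicalSpace.countable_countableBasis K).prod (TopologicalSpace.countable_countableBasis K))
  let O1 : Set Y × Set K × Set K → Set W := fun c => {p : W | ∀ x : (Y × K) × (Y × K), ∃ n : ℕ,
      ((p.1)^[n] x.1).1 ∈ c.1 ∧ ((p.1)^[n] x.1).2 ∈ c.2.1 ∧ ((p.1)^[2 * n] x.2).2 ∈ c.2.2}
  let O2 : ℕ → Set W := fun k => {p : W | ∀ x : Y × K × K, ∃ n : ℕ,
      dist ((p.1)^[n] (x.1, x.2.1)) ((p.1)^[n] (x.1, x.2.2)) < 1 / (k + 1)}
  have hneY : ∀ s ∈ BY, s.Nonempty := fun s hs =>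
    TopologicalSpace.nonempty_of_mem_countableBasis hs
  have hneK : ∀ s ∈ BK, s.Nonempty := fun s hs =>
    TopologicalSpace.nonempty_of_mem_countableBasis hs
  have g1 : (⋂ c ∈ Q1, (Subtype.val ⁻¹' O1 c : Set (closure A))) ∈ residual (closure A) := by
    refine (countable_bInter_mem hQ1).2 fun c hc => ?_
    refine residual_of_dense_open ((open_min (hbY.isOpen hc.1) (hbK.isOpen hc.2.1)
      (hbK.isOpen hc.2.2)).preimage continuous_subtype_val) ?_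
    refine hdense _ fun Θ ε hε => ?_
    obtain ⟨Θ', h1, h2⟩ := dense_min hα Θ hε (hbY.isOpen hc.1) (hbK.isOpen hc.2.1)
        (hbK.isOpen hc.2.2) (hneY _ hc.1) (hneK _ hc.2.1) (hneK _ hc.2.2)
    exact ⟨Θ', h1, fun x => h2 x.1 x.2⟩
  have g2 : (⋂ k : ℕ, (Subtype.val ⁻¹' O2 k : Set (closure A))) ∈ residual (closure A) := by
    refine countable_iInter_mem.2 fun k => ?_
    refine residual_of_dense_open ((open_prox _).preimage continuous_subtype_val) ?_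
    refine hdense _ fun Θ ε hε => ?_
    obtain ⟨Θ', h1, h2⟩ := dense_prox hα Θ hε (show (0 : ℝ) < 1 / (k + 1) by positivity)
    exact ⟨Θ', h1, fun x => h2 x.1 x.2.1 x.2.2⟩
  obtain ⟨⟨p, hp⟩, hp1, hp2⟩ := (dense_of_mem_residual (inter_mem g1 g2)).nonempty
  simp only [mem_iInter, mem_preimage] at hp1 hp2
  have hcl : ∀ {F : Set W}, IsClosed F → (∀ Θ : Fib, Θ.pair α ∈ F) → p ∈ F := by
    intro F hF h
    refine closure_minimal ?_ hF hp
    rintro _ ⟨Θ, rfl⟩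
    exact h Θ
  have ev1 : ∀ x : Y × K, Continuous fun q : W => q.1 x := fun x =>
    (ContinuousEvalConst.continuous_eval_const x).comp continuous_fst
  have ev2 : Continuous fun z : C(Y × K, Y × K) × (Y × K) => z.1 z.2 :=
    ContinuousEval.continuous_eval
  refine ⟨p.1, p.2, fun x => ?_, fun x => ?_, fun x => ?_, ?_, ?_⟩
  · exact hcl (F := {q : W | q.2 (q.1 x) = x}) (isClosed_eq (ev2.comp (continuous_snd.prodMk (ev1 x)))
      continuous_const) fun Θ => Θ.T_inv α x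
  · refine hcl (F := {q : W | q.1 (q.2 x) = x}) (isClosed_eq (ev2.comp (continuous_fst.prodMk
      ((ContinuousEvalConst.continuous_eval_const x).comp continuous_snd))) continuous_const)
      fun Θ => ?_
    have := Θ.T_inv (-α) x
    rwa [neg_neg] at this
  · exact hcl (F := {q : W | (q.1 x).1 = x.1 + α}) (isClosed_eq (continuous_fst.comp (ev1 x))
      continuous_const) fun Θ => rfl
  · intro I J₁ J₂ hI hJ₁ hJ₂ ⟨a, ha⟩ ⟨b, hb⟩ ⟨c, hc⟩ x₁ x₂
    obtain ⟨I', hI', haI, hII⟩ := hbY.exists_subset_of_mem_open ha hI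
    obtain ⟨J₁', hJ₁', hbJ, hJJ₁⟩ := hbK.exists_subset_of_mem_open hb hJ₁
    obtain ⟨J₂', hJ₂', hcJ, hJJ₂⟩ := hbK.exists_subset_of_mem_open hc hJ₂
    obtain ⟨n, h1, h2, h3⟩ := hp1 (I', J₁', J₂') ⟨hI', hJ₁', hJ₂'⟩ (x₁, x₂)
    exact ⟨n, hII h1, hJJ₁ h2, hJJ₂ h3⟩
  · intro ε hε y v v'
    obtain ⟨k, hk⟩ := exists_nat_one_div_lt hε
    obtain ⟨n, hn⟩ := hp2 k (y, v, v')
    exact ⟨n, hn.trans hk⟩

end Pool.Agent.Q67.GW
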