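import Pool.Agent.Q67.GW.Base

/-!
The two kinds of loops: rotations with a fast and a slow arc, and hyperbolic maps with a moving
direction.
-/

open Set Filter Topology
open scoped ComplexConjugate Real

set_option autoImplicit false
set_option linter.unusedSectionVars false
set_option linter.unusedVariables false

namespace Pool.Agent.Q67.GW

theorem cdist (z w : Circle) : dist z w = ‖(z : ℂ) - w‖ := by
  rw [← dist_eq_norm]; rfl

theorem exp_dist (a : ℝ) (z : Circle) : dist (Circle.exp a * z) z ≤ |a| := by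
  rw [cdist, Circle.coe_mul, Circle.coe_exp]
  have h : Complex.exp (a * Complex.I) * (z : ℂ) - z = (Complex.exp (Complex.I * a) - 1) * z := by
    rw [mul_comm (a : ℂ)]; ring
  rw [h, norm_mul, Circle.norm_coe, mul_one]
  exact Real.norm_exp_I_mul_ofReal_sub_one_le

theorem mul_dist (a b z : Circle) : dist (a * z) (b * z) = dist a b := by
  rw [cdist, cdist, Circle.coe_mul, Circle.coe_mul, ← sub_mul, norm_mul, Circle.norm_coe, mul_one]

/-- The rotation loop from a map to the circle. -/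
noncomputable def rotLoop (E : C(Y, K)) : Fib where
  f := ⟨fun x => (E x.1)⁻¹ * x.2, by fun_prop⟩
  g := ⟨fun x => E x.1 * x.2, by fun_prop⟩
  gf := fun y v => by
    show E y * ((E y)⁻¹ * v) = v
    rw [mul_inv_cancel_left]
  fg := fun y v => by
    show (E y)⁻¹ * (E y * v) = v
    rw [inv_mul_cancel_left]

/-- The map with a fast and a slow arc. -/
noncomputable def EN (N : ℕ) : C(Y, K) :=
  ⟨fun s => AddCircle.toCircle ((16 : ℕ) • s) * Circle.exp (2 * π * (N * min ‖s‖ (1 / 8))), by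
    refine Continuous.mul ?_ ?_
    · exact AddCircle.continuous_toCircle.comp (by fun_prop)
    · exact Circle.exp.continuous.comp (by fun_prop)⟩

theorem EN_apply (N : ℕ) (s : Y) :
    EN N s = AddCircle.toCircle ((16 : ℕ) • s) * Circle.exp (2 * π * (N * min ‖s‖ (1 / 8))) := rfl

theorem exp_eq_of {x y : ℝ} (h : ∃ m : ℤ, x = y + m) :
    Circle.exp (2 * π * x) = Circle.exp (2 * π * y) := by
  obtain ⟨m, rfl⟩ := h
  rw [Circle.exp_eq_exp]
  exact ⟨m, by ring⟩

theorem EN_coe (N : ℕ) (x : ℝ) :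
    EN N (x : Y) = Circle.exp (2 * π * (16 * x + N * min ‖(x : Y)‖ (1 / 8))) := by
  rw [EN_apply, ← AddCircle.coe_nsmul, AddCircle.toCircle_apply_mk, ← Circle.exp_add]
  congr 1
  simp only [nsmul_eq_mul]
  push_cast
  ring

theorem norm_small {x : ℝ} (h : |x| ≤ 1 / 8) : ‖(x : Y)‖ = |x| := by
  rw [UnitAddCircle.norm_eq]
  have h1 := abs_le.1 h
  rw [show round x = 0 from by
    rw [round_eq_zero_iff]
    constructor <;> linarith [h1.1, h1.2]]
  simp

theorem norm_big {u : ℝ} (h1 : 1 / 8 ≤ u) (h2 : u ≤ 3 / 4) : 1 / 8 ≤ ‖(u : Y)‖ := by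
  rw [UnitAddCircle.norm_eq]
  rcases le_or_gt (round u) 0 with h | h
  · have : (round u : ℝ) ≤ 0 := by exact_mod_cast h
    refine le_trans ?_ (le_abs_self _)
    linarith
  · have : (1 : ℝ) ≤ round u := by exact_mod_cast h
    refine le_trans ?_ (neg_le_abs _)
    linarith

/-- The key property of the map with a fast and a slow arc. -/
theorem EN_hit {η : ℝ} (hη : 0 < η) : ∃ N : ℕ, ∀ (c : Y) (z₁ z₂ : Circle), ∃ s : Y,
    EN N s = z₁ ∧ dist (EN N (s + s - c)) z₂ < η := by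
  obtain ⟨N, hN⟩ := exists_nat_gt (16 + max 32 (64 * π / η))
  have hN1 : (48 : ℝ) < N := lt_of_le_of_lt (by linarith [le_max_left (32 : ℝ) (64 * π / η)]) hN
  have hN2 : 16 + 64 * π / η < N :=
    lt_of_le_of_lt (by linarith [le_max_right (32 : ℝ) (64 * π / η)]) hN
  refine ⟨N, fun c z₁ z₂ => ?_⟩
  -- a representative of `c`
  obtain ⟨c₀, hc, hc1, hc2⟩ : ∃ c₀ : ℝ, (c₀ : Y) = c ∧ -(1 / 2) ≤ c₀ ∧ c₀ ≤ 1 / 2 := by
    obtain ⟨x, rfl⟩ := QuotientAddGroup.mk_surjective c
    refine ⟨x - round x, ?_, ?_, ?_⟩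
    · rw [AddCircle.coe_sub]
      simp
    · have := abs_le.1 (abs_sub_round x); linarith [this.1]
    · have := abs_le.1 (abs_sub_round x); linarith [this.2]
  obtain ⟨σ, hσ, hσc⟩ : ∃ σ : ℤ, (σ = 1 ∨ σ = -1) ∧ (σ : ℝ) * c₀ ≤ 0 := by
    rcases le_total c₀ 0 with h | h
    · exact ⟨1, Or.inl rfl, by simpa using h⟩
    · exact ⟨-1, Or.inr rfl, by simpa using h⟩
  have hσσ : (σ : ℝ) * σ = 1 := by rcases hσ with rfl | rfl <;> norm_num
  have hσa : |(σ : ℝ)| = 1 := by rcases hσ with rfl | rfl <;> norm_num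
  have hσl : -1 ≤ (σ : ℝ) ∧ (σ : ℝ) ≤ 1 := abs_le.1 hσa.le
  have hσc' : -(1 / 2) ≤ (σ : ℝ) * c₀ := by
    rcases hσ with rfl | rfl
    · simpa using hc1
    · push_cast; linarith
  obtain ⟨φ₁, hφ₁⟩ := Circle.exp_surjective z₁
  obtain ⟨φ₂, hφ₂⟩ := Circle.exp_surjective z₂
  set M : ℝ := N + 16 * σ with hM
  have hM32 : 32 < M := by linarith [hσl.1]
  have hMη : 64 * π / η < M := by linarith [hσl.1]
  set ψ : ℝ := φ₂ / (2 * π) - N / 8 + 16 * c₀ with hψ
  set y₁ : ℝ := 1 / 16 + Int.fract (σ * ψ) / 32 with hy₁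
  have hf1 := Int.fract_nonneg ((σ : ℝ) * ψ)
  have hf2 := Int.fract_lt_one ((σ : ℝ) * ψ)
  set j : ℝ := Int.fract (φ₁ / (2 * π) - M * y₁) / M with hj
  have hg1 := Int.fract_nonneg (φ₁ / (2 * π) - M * y₁)
  have hg2 := Int.fract_lt_one (φ₁ / (2 * π) - M * y₁)
  have hMpos : 0 < M := by linarith
  have hj0 : 0 ≤ j := div_nonneg hg1 hMpos.le
  have hj1 : j < 1 / M := div_lt_div_of_pos_right hg2 hMpos
  have hj2 : j ≤ 1 / 32 := hj1.le.trans (one_div_le_one_div_of_le (by norm_num) hM32.le)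
  have hy1 : 1 / 16 ≤ y₁ + j := by linarith
  have hy2 : y₁ + j ≤ 1 / 8 := by linarith
  refine ⟨((σ * (y₁ + j) : ℝ) : Y), ?_, ?_⟩
  · have h1 : |(σ : ℝ) * (y₁ + j)| = y₁ + j := by
      rw [abs_mul, hσa, one_mul, abs_of_nonneg (by linarith)]
    rw [EN_coe, norm_small (by rw [h1]; exact hy2), h1, min_eq_left hy2, ← hφ₁]
    have h2 : 16 * ((σ : ℝ) * (y₁ + j)) + N * (y₁ + j) = M * y₁ + M * j := by rw [hM]; ring
    have h3 : M * j = φ₁ / (2 * π) - M * y₁ - ⌊φ₁ / (2 * π) - M * y₁⌋ := by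
      rw [hj, mul_div_cancel₀ _ hMpos.ne', Int.fract]
    rw [h2, h3, exp_eq_of (y := φ₁ / (2 * π)) ⟨-⌊φ₁ / (2 * π) - M * y₁⌋, by push_cast; ring⟩]
    congr 1
    field_simp
  · have h1 : (((σ * (y₁ + j) : ℝ) : Y) + ((σ * (y₁ + j) : ℝ) : Y) - c)
        = ((2 * (σ * (y₁ + j)) - c₀ : ℝ) : Y) := by
      rw [← hc, AddCircle.coe_sub, two_mul, AddCircle.coe_add]
    have h2 : 1 / 8 ≤ ‖((2 * (σ * (y₁ + j)) - c₀ : ℝ) : Y)‖ := by
      have h3 : 1 / 8 ≤ ‖((2 * (y₁ + j) - σ * c₀ : ℝ) : Y)‖ := norm_big (by linarith) (by linarith)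
      rcases hσ with h | h
      · rw [h] at h3 ⊢
        simpa using h3
      · rw [h] at h3 ⊢
        rw [← norm_neg, ← AddCircle.coe_neg]
        have h9 : -(2 * (((-1 : ℤ) : ℝ) * (y₁ + j)) - c₀) =
            2 * (y₁ + j) - ((-1 : ℤ) : ℝ) * c₀ := by push_cast; ring
        rw [h9]
        exact h3
    rw [h1, EN_coe, min_eq_right h2]
    have h4 : 2 * π * (16 * (2 * (σ * (y₁ + j)) - c₀) + N * (1 / 8)) =
        2 * π * (32 * σ * j) + 2 * π * (32 * σ * y₁ - 16 * c₀ + N / 8) := by ring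
    have h5 : Circle.exp (2 * π * (32 * σ * y₁ - 16 * c₀ + N / 8)) = z₂ := by
      have h6 : 32 * (σ : ℝ) * y₁ - 16 * c₀ + N / 8 =
          φ₂ / (2 * π) + ((2 * σ - σ * ⌊(σ : ℝ) * ψ⌋ : ℤ) : ℝ) := by
        have h7 : (σ : ℝ) * Int.fract (σ * ψ) = ψ - σ * ⌊(σ : ℝ) * ψ⌋ := by
          rw [Int.fract, mul_sub, ← mul_assoc, hσσ, one_mul]
        rw [hy₁]
        push_cast
        have h8 : 32 * (σ : ℝ) * (1 / 16 + Int.fract (σ * ψ) / 32) =
            2 * σ + σ * Int.fract (σ * ψ) := by ring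
        rw [h8, h7, hψ]
        ring
      rw [h6, exp_eq_of (y := φ₂ / (2 * π)) ⟨_, rfl⟩, ← hφ₂]
      congr 1
      field_simp
    rw [h4, Circle.exp_add, h5]
    refine (exp_dist _ _).trans_lt ?_
    rw [show 2 * π * (32 * (σ : ℝ) * j) = σ * (2 * π * (32 * j)) by ring, abs_mul, hσa, one_mul,
      abs_of_nonneg (by positivity)]
    calc 2 * π * (32 * j) = 64 * π * j := by ring
      _ < 64 * π * (1 / M) := by
        refine mul_lt_mul_of_pos_left hj1 (by positivity)
      _ < η := by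
        rw [mul_one_div, div_lt_iff₀ hMpos]
        rw [div_lt_iff₀ hη] at hMη
        linarith

/-- Loops for minimality. -/
theorem loop_min {η : ℝ} (hη : 0 < η) : ∃ L : Fib, ∀ (c : Y) (w₁ w₂ a₁ a₂ : K), ∃ s : Y,
    dist (L.g (s, w₁)) a₁ < η ∧ dist (L.g (s + s - c, w₂)) a₂ < η := by
  obtain ⟨N, hN⟩ := EN_hit hη
  refine ⟨rotLoop (EN N), fun c w₁ w₂ a₁ a₂ => ?_⟩
  obtain ⟨s, h1, h2⟩ := hN c (a₁ / w₁) (a₂ / w₂)
  refine ⟨s, ?_, ?_⟩
  · show dist (EN N s * w₁) a₁ < η
    rw [h1, div_mul_cancel]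
    simpa using hη
  · show dist (EN N (s + s - c) * w₂) a₂ < η
    have h3 : a₂ = a₂ / w₂ * w₂ := by rw [div_mul_cancel]
    rw [h3, mul_dist]
    exact h2

/-! ### Hyperbolic loops -/

theorem mob_ne {r : ℝ} (hr : |r| < 1) (e v : Circle) : (1 : ℂ) + r * conj (e : ℂ) * v ≠ 0 := by
  intro h
  have h1 : (r : ℂ) * conj (e : ℂ) * v = -1 := by linear_combination h
  have h2 : ‖(r : ℂ) * conj (e : ℂ) * v‖ = 1 := by rw [h1]; simp
  rw [norm_mul, norm_mul, Circle.norm_coe, RCLike.norm_conj, Circle.norm_coe, mul_one, mul_one,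
    Complex.norm_real, Real.norm_eq_abs] at h2
  linarith

/-- The hyperbolic map with attracting point `e` and repelling point `-e`. -/
noncomputable def mob (r : ℝ) (hr : |r| < 1) (e v : Circle) : Circle :=
  v * Circle.ofConjDivSelf (1 + r * conj (e : ℂ) * v) (mob_ne hr e v)

theorem conj_mul_self (e : Circle) : conj (e : ℂ) * e = 1 := by
  rw [← Circle.coe_inv_eq_conj, ← Circle.coe_mul, inv_mul_cancel, Circle.coe_one]

theorem coe_mob (r : ℝ) (hr : |r| < 1) (e v : Circle) :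
    (mob r hr e v : ℂ) = (v + r * e) / (1 + r * conj (e : ℂ) * v) := by
  rw [mob, Circle.coe_mul, Circle.ofConjDivSelf_coe, mul_div_assoc']
  congr 1
  simp only [map_add, map_one, map_mul, Complex.conj_ofReal, Complex.conj_conj]
  have := conj_mul_self v
  linear_combination (r : ℂ) * e * this

theorem continuous_ccoe : Continuous fun z : Circle => (z : ℂ) := continuous_subtype_val

theorem continuous_mob {r : ℝ} (hr : |r| < 1) :
    Continuous fun x : Circle × Circle => mob r hr x.1 x.2 := by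
  have h1 : Continuous fun x : Circle × Circle => ((mob r hr x.1 x.2 : Circle) : ℂ) := by
    simp only [coe_mob]
    have e1 : Continuous fun x : Circle × Circle => (x.1 : ℂ) := continuous_ccoe.comp continuous_fst
    have e2 : Continuous fun x : Circle × Circle => (x.2 : ℂ) := continuous_ccoe.comp continuous_snd
    refine Continuous.div (by fun_prop) ?_ (fun x => mob_ne hr x.1 x.2)
    have e3 : Continuous fun x : Circle × Circle => conj (x.1 : ℂ) :=
      Complex.continuous_conj.comp e1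
    fun_prop
  exact continuous_induced_rng.2 h1

theorem mob_mob {r : ℝ} (hr : |r| < 1) (hr' : |-r| < 1) (e v : Circle) :
    mob r hr e (mob (-r) hr' e v) = v := by
  apply Circle.ext
  rw [coe_mob, coe_mob]
  have h1 := mob_ne hr' e v
  have h2 := conj_mul_self e
  have h3 : (1 : ℂ) - r ^ 2 ≠ 0 := by
    have : r ^ 2 < 1 := by
      rw [← sq_abs]
      nlinarith [abs_nonneg r]
    have h4 : (1 - r ^ 2 : ℝ) ≠ 0 := by linarith
    exact_mod_cast h4
  have h4 : (v : ℂ) + ((-r : ℝ) : ℂ) * e + r * e * (1 + ((-r : ℝ) : ℂ) * conj (e : ℂ) * v) =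
      v * (1 - r ^ 2) := by
    push_cast
    linear_combination -(r : ℂ) ^ 2 * v * h2
  have h5 : (1 + ((-r : ℝ) : ℂ) * conj (e : ℂ) * v) + r * conj (e : ℂ) * (v + ((-r : ℝ) : ℂ) * e) =
      1 - r ^ 2 := by
    push_cast
    linear_combination -(r : ℂ) ^ 2 * h2
  rw [div_add' _ _ _ h1, h4, mul_div_assoc', add_div' _ _ _ h1, one_mul, h5,
    div_div_div_cancel_right₀ h1, mul_div_cancel_right₀ _ h3]

/-- The loop of hyperbolic maps with moving attracting point. -/
noncomputable def hypLoop (r : ℝ) (hr : |r| < 1) : Fib where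
  f := ⟨fun x => mob (-r) (by rwa [abs_neg]) (AddCircle.toCircle x.1) x.2,
    (continuous_mob (r := -r) (by rwa [abs_neg])).comp
      ((AddCircle.continuous_toCircle.comp continuous_fst).prodMk continuous_snd)⟩
  g := ⟨fun x => mob r hr (AddCircle.toCircle x.1) x.2,
    (continuous_mob hr).comp ((AddCircle.continuous_toCircle.comp continuous_fst).prodMk
      continuous_snd)⟩
  gf := fun y v => mob_mob hr (by rwa [abs_neg]) _ _
  fg := fun y v => by
    have hr' : |-r| < 1 := by rwa [abs_neg]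
    have := mob_mob (r := -r) hr' (by rwa [neg_neg]) (AddCircle.toCircle y) v
    simp only [neg_neg] at this
    exact this

theorem mob_dist {r : ℝ} (hr : |r| < 1) (hr4 : 3 / 4 ≤ r) (e v : Circle)
    (h : 1 / 2 ≤ ‖(v : ℂ) + e‖) : dist (mob r hr e v) e ≤ 8 * (1 - r) := by
  have hr1 : r < 1 := (abs_lt.1 hr).2
  rw [cdist, coe_mob]
  have h0 := mob_ne hr e v
  have h1 : ((v : ℂ) + r * e) / (1 + r * conj (e : ℂ) * v) - (e : ℂ) =
      (1 - r) * ((v : ℂ) - e) / (1 + r * conj (e : ℂ) * v) := by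
    rw [div_sub' h0]
    congr 1
    have := conj_mul_self e
    linear_combination -(r : ℂ) * v * this
  have h2 : ‖1 + r * conj (e : ℂ) * v‖ = ‖(e : ℂ) + r * v‖ := by
    have : (e : ℂ) + r * v = e * (1 + r * conj (e : ℂ) * v) := by
      have := conj_mul_self e
      linear_combination -(r : ℂ) * v * this
    rw [this, norm_mul, Circle.norm_coe, one_mul]
  have h3 : 1 / 4 ≤ ‖(e : ℂ) + r * v‖ := by
    have h4 : (e : ℂ) + r * v = (v + e) - ((1 - r : ℝ) : ℂ) * v := by push_cast; ring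
    rw [h4]
    have h5 := norm_sub_norm_le ((v : ℂ) + e) (((1 - r : ℝ) : ℂ) * v)
    have h6 : ‖((1 - r : ℝ) : ℂ) * (v : ℂ)‖ = 1 - r := by
      rw [norm_mul, Circle.norm_coe, mul_one, Complex.norm_real, Real.norm_eq_abs,
        abs_of_pos (by linarith)]
    rw [h6] at h5
    linarith
  rw [h1, norm_div, norm_mul, h2, div_le_iff₀ (by linarith)]
  have h7 : ‖(1 : ℂ) - r‖ = 1 - r := by
    rw [show (1 : ℂ) - r = ((1 - r : ℝ) : ℂ) by push_cast; ring, Complex.norm_real,
      Real.norm_eq_abs, abs_of_pos (by linarith)]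
  have h8 : ‖(v : ℂ) - e‖ ≤ 2 := by
    refine (norm_sub_le _ _).trans ?_
    rw [Circle.norm_coe, Circle.norm_coe]
    norm_num
  rw [h7]
  nlinarith [norm_nonneg ((v : ℂ) - e)]

/-- Loops for proximality. -/
theorem loop_prox {η : ℝ} (hη : 0 < η) : ∃ L : Fib, ∀ w w' : K, ∃ s : Y,
    dist (L.g (s, w)) (L.g (s, w')) < η := by
  set r : ℝ := 1 - min (1 / 4) (η / 17) with hr0
  have hm1 : 0 < min (1 / 4 : ℝ) (η / 17) := lt_min (by norm_num) (by positivity)
  have hm2 := min_le_left (1 / 4 : ℝ) (η / 17)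
  have hm3 := min_le_right (1 / 4 : ℝ) (η / 17)
  have hr : |r| < 1 := by rw [abs_lt]; constructor <;> linarith
  refine ⟨hypLoop r hr, fun w w' => ?_⟩
  obtain ⟨e, he1, he2⟩ : ∃ e : Circle, 1 / 2 ≤ ‖(w : ℂ) + e‖ ∧ 1 / 2 ≤ ‖(w' : ℂ) + e‖ := by
    by_cases h : 1 / 2 ≤ ‖(w' : ℂ) + w‖
    · refine ⟨w, ?_, h⟩
      rw [← two_mul, norm_mul, Circle.norm_coe]
      norm_num
    · push Not at h
      have hI : ((Circle.exp (π / 2) : Circle) : ℂ) = Complex.I := by
        rw [Circle.coe_exp]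
        push_cast
        exact Complex.exp_pi_div_two_mul_I
      have h1 : ‖(1 : ℂ) + Complex.I‖ = √2 := by
        rw [Complex.norm_def]
        congr 1
        simp [Complex.normSq_apply]
        norm_num
      have h2 : (1.2 : ℝ) ≤ √2 := Real.le_sqrt_of_sq_le (by norm_num)
      refine ⟨Circle.exp (π / 2) * w, ?_, ?_⟩
      · rw [Circle.coe_mul, hI, show (w : ℂ) + Complex.I * w = (1 + Complex.I) * w by ring,
          norm_mul, Circle.norm_coe, h1]
        linarith
      · rw [Circle.coe_mul, hI]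
        have h3 : ‖(-1 : ℂ) + Complex.I‖ = √2 := by
          rw [Complex.norm_def]
          congr 1
          simp [Complex.normSq_apply]
          norm_num
        have h4 : ((w' : ℂ) + Complex.I * w) = ((w' : ℂ) + w) - (-((-1 + Complex.I) * w)) := by ring
        have h5 := norm_sub_norm_le (-((-1 + Complex.I) * (w : ℂ))) ((w' : ℂ) + w)
        rw [h4, ← norm_neg, neg_sub]
        rw [norm_neg, norm_mul, h3, Circle.norm_coe, mul_one] at h5
        linarith
  obtain ⟨s, hs⟩ := (AddCircle.homeomorphCircle (T := 1) one_ne_zero).surjective e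
  rw [AddCircle.homeomorphCircle_apply] at hs
  refine ⟨s, ?_⟩
  have h1 : dist ((hypLoop r hr).g (s, w)) e ≤ 8 * (1 - r) := by
    show dist (mob r hr (AddCircle.toCircle s) w) e ≤ _
    rw [hs]
    exact mob_dist hr (by linarith) e w he1
  have h2 : dist ((hypLoop r hr).g (s, w')) e ≤ 8 * (1 - r) := by
    show dist (mob r hr (AddCircle.toCircle s) w') e ≤ _
    rw [hs]
    exact mob_dist hr (by linarith) e w' he2
  calc _ ≤ dist ((hypLoop r hr).g (s, w)) e + dist ((hypLoop r hr).g (s, w')) e :=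
        dist_triangle_right _ _ _
    _ ≤ 8 * (1 - r) + 8 * (1 - r) := add_le_add h1 h2
    _ < η := by linarith

end Pool.Agent.Q67.GW
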